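import Pool.Agent.Helper586.RichTwoThirds
import Pool.Agent.Helper586.KraftFinal

set_option autoImplicit false
open Filter Asymptotics

namespace Pool.Agent.Results.MP_ffc92f_co.Theta

/-- `richCount A n` is `R_A(n)`: the number of words of length `n` over the alphabet `A` having
exactly `n + 1` distinct palindromic factors (the empty word included), i.e. the number of rich
words of length `n`. -/
noncomputable def richCount (A : Type) (n : ℕ) : ℕ :=
  Set.ncard {w : List A | w.length = n ∧
    Set.ncard {u : List A | u <:+: w ∧ u.reverse = u} = w.length + 1}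

open Pool.Agent.Helper586.RW in
theorem R_le_richCount (A : Type) [Finite A] [Nontrivial A] (n : ℕ) : R n ≤ richCount A n := by
  obtain ⟨a, b, hab⟩ := exists_pair_ne A
  set f : Fin 2 → A := fun i => if i = 0 then a else b with hf
  have hfi : Function.Injective f := by
    intro i j h
    rcases fin2 i with rfl | rfl <;> rcases fin2 j with rfl | rfl
    · rfl
    · exact absurd h (by simpa [hf] using hab)
    · exact absurd h (by simpa [hf] using hab.symm)
    · rfl
  have hmi : Function.Injective (List.map f) := List.map_injective_iff.mpr hfi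
  rw [R, richCount, ← Set.ncard_image_of_injective _ hmi]
  apply Set.ncard_le_ncard
  · rintro _ ⟨w, ⟨hw1, hw2⟩, rfl⟩
    refine ⟨by rw [List.length_map, hw1], ?_⟩
    have e : {u : List A | u <:+: w.map f ∧ u.reverse = u} =
        (List.map f) '' {v | v <:+: w ∧ v.reverse = v} := by
      ext u
      constructor
      · rintro ⟨h1, h2⟩
        obtain ⟨l, hl, rfl⟩ := List.infix_map_iff.mp h1
        refine ⟨l, ⟨hl, ?_⟩, rfl⟩
        rw [← List.map_reverse] at h2
        exact hmi h2
      · rintro ⟨v, ⟨h1, h2⟩, rfl⟩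
        refine ⟨h1.map f, ?_⟩
        rw [← List.map_reverse, h2]
    rw [e, Set.ncard_image_of_injective _ hmi, hw2, List.length_map]
  · exact (List.finite_length_eq A n).subset (fun w hw => hw.1)

theorem two_sided (A : Type) [Finite A] [Nontrivial A] : ∃ c C : ℝ, 0 < c ∧ 0 < C ∧
    ∀ n : ℕ, 768 ≤ n →
      c * (n : ℝ) ^ ((2 : ℝ) / 3) ≤ Real.log (richCount A n) ∧
      Real.log (richCount A n) ≤ C * (n : ℝ) ^ ((2 : ℝ) / 3) := by
  have : Fintype A := Fintype.ofFinite A
  have hl : (0 : ℝ) < Real.log 2 := Real.log_pos (by norm_num)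
  have h12 : (0 : ℝ) < (12 : ℝ) ^ ((2 : ℝ) / 3) := Real.rpow_pos_of_pos (by norm_num) _
  obtain ⟨C, hC0, hC⟩ := Pool.Agent.Helper586.RG.log_cnt_le' A
  refine ⟨Real.log 2 / 64 / (12 : ℝ) ^ ((2 : ℝ) / 3), C + 1, by positivity, by positivity, ?_⟩
  intro n hn
  constructor
  · have h1 : Real.log 2 / 64 * ((n : ℝ) / 12) ^ ((2 : ℝ) / 3) ≤ Real.log (richCount A n) := by
      refine (Pool.Agent.Helper586.RW.log_R_ge' n hn).trans ?_
      apply Real.log_le_log
      · exact_mod_cast Pool.Agent.Helper586.RW.R_pos_of_big (by omega)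
      · exact_mod_cast R_le_richCount A n
    rw [Real.div_rpow (Nat.cast_nonneg n) (by norm_num)] at h1
    refine le_trans (le_of_eq ?_) h1
    ring
  · refine (hC n (by omega)).trans ?_
    have h2 : (0 : ℝ) ≤ (n : ℝ) ^ ((2 : ℝ) / 3) := Real.rpow_nonneg (Nat.cast_nonneg n) _
    apply mul_le_mul_of_nonneg_right _ h2
    linarith

/-- For every finite alphabet `A` with at least two letters, `log R_A(n) = Θ(n^{2/3})`. -/
theorem result (A : Type) [Finite A] [Nontrivial A] :
    (fun n : ℕ => Real.log (richCount A n)) =Θ[atTop] (fun n : ℕ => (n : ℝ) ^ ((2 : ℝ) / 3)) := by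
  obtain ⟨c, C, hc, hC, h⟩ := two_sided A
  constructor
  · refine IsBigO.of_bound C ?_
    filter_upwards [eventually_ge_atTop 768] with n hn
    have h2 : (0 : ℝ) ≤ (n : ℝ) ^ ((2 : ℝ) / 3) := Real.rpow_nonneg (Nat.cast_nonneg n) _
    rw [Real.norm_of_nonneg (Real.log_natCast_nonneg _), Real.norm_of_nonneg h2]
    exact (h n hn).2
  · refine IsBigO.of_bound (1 / c) ?_
    filter_upwards [eventually_ge_atTop 768] with n hn
    have h2 : (0 : ℝ) ≤ (n : ℝ) ^ ((2 : ℝ) / 3) := Real.rpow_nonneg (Nat.cast_nonneg n) _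
    rw [Real.norm_of_nonneg (Real.log_natCast_nonneg _), Real.norm_of_nonneg h2]
    rw [one_div, inv_mul_eq_div, le_div_iff₀ hc, mul_comm]
    exact (h n hn).1

end Pool.Agent.Results.MP_ffc92f_co.Theta
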