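import Pool.Agent.Helper586.RichTwoThirds

set_option autoImplicit false
open Filter

namespace Pool.Agent.Results.MP_ffc92f_co.TwoThirds

/-- `richCount A n` is `R_A(n)`: the number of words of length `n` over the alphabet `A` having
exactly `n + 1` distinct palindromic factors (the empty word included), i.e. the number of rich
words of length `n`. -/
noncomputable def richCount (A : Type) (n : ℕ) : ℕ :=
  Set.ncard {w : List A | w.length = n ∧
    Set.ncard {u : List A | u <:+: w ∧ u.reverse = u} = w.length + 1}

open Pool.Agent.Helper586.RW in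
theorem R_le_richCount (A : Type) [Finite A] [Nontrivial A] (n : ℕ) : R n ≤ richCount A n := by
  obtain ⟨a, b, hab⟩ := exists_pair_ne A
  set f : Fin 2 → A := fun i => if i = 0 then a else b with hf
  have hfi : Function.Injective f := by
    intro i j h
    rcases fin2 i with rfl | rfl <;> rcases fin2 j with rfl | rfl
    · rfl
    · exact absurd h (by simpa [hf] using hab)
    · exact absurd h (by simpa [hf] using hab.symm)
    · rfl
  have hmi : Function.Injective (List.map f) := List.map_injective_iff.mpr hfi
  rw [R, richCount, ← Set.ncard_image_of_injective _ hmi]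
  apply Set.ncard_le_ncard
  · rintro _ ⟨w, ⟨hw1, hw2⟩, rfl⟩
    refine ⟨by rw [List.length_map, hw1], ?_⟩
    have e : {u : List A | u <:+: w.map f ∧ u.reverse = u} =
        (List.map f) '' {v | v <:+: w ∧ v.reverse = v} := by
      ext u
      constructor
      · rintro ⟨h1, h2⟩
        obtain ⟨l, hl, rfl⟩ := List.infix_map_iff.mp h1
        refine ⟨l, ⟨hl, ?_⟩, rfl⟩
        rw [← List.map_reverse] at h2
        exact hmi h2
      · rintro ⟨v, ⟨h1, h2⟩, rfl⟩
        refine ⟨h1.map f, ?_⟩
        rw [← List.map_reverse, h2]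
    rw [e, Set.ncard_image_of_injective _ hmi, hw2, List.length_map]
  · exact (List.finite_length_eq A n).subset (fun w hw => hw.1)

/-- There is an absolute constant `c > 0` such that for every finite alphabet `A` with at least
two letters and every `n ≥ 768`, `log R_A(n) ≥ c n^{2/3}`. -/
theorem result : ∃ c : ℝ, 0 < c ∧ ∀ (A : Type) [Finite A] [Nontrivial A] (n : ℕ), 768 ≤ n →
    c * (n : ℝ) ^ ((2 : ℝ) / 3) ≤ Real.log (richCount A n) := by
  have hl : (0 : ℝ) < Real.log 2 := Real.log_pos (by norm_num)
  have h12 : (0 : ℝ) < (12 : ℝ) ^ ((2 : ℝ) / 3) := Real.rpow_pos_of_pos (by norm_num) _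
  refine ⟨Real.log 2 / 64 / (12 : ℝ) ^ ((2 : ℝ) / 3), by positivity, ?_⟩
  intro A _ _ n hn
  have h1 : Real.log 2 / 64 * ((n : ℝ) / 12) ^ ((2 : ℝ) / 3) ≤ Real.log (richCount A n) := by
    refine (Pool.Agent.Helper586.RW.log_R_ge' n hn).trans ?_
    apply Real.log_le_log
    · exact_mod_cast Pool.Agent.Helper586.RW.R_pos_of_big (by omega)
    · exact_mod_cast R_le_richCount A n
  rw [Real.div_rpow (Nat.cast_nonneg n) (by norm_num)] at h1
  refine le_trans (le_of_eq ?_) h1
  ring

end Pool.Agent.Results.MP_ffc92f_co.TwoThirds
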